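import Pool.Agent.Y576.PG.Final3

/-!
# Pretty good transfer between rational states is decidable in polynomial time

A strengthening of `PolynomialTime`.  One polynomial-time Turing machine decides, for every
symmetric matrix `A / q` with rational entries (an integer matrix `A` and a common denominator `q`,
all numbers in binary) and every two distinct real states given by integer vectors `a`, `b` of the
same length, whether pretty good transfer occurs between the two states under the Hamiltonian
`A / q`.  This contains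

* the question itself: two vertices of a graph, adjacency matrix;
* the same question for the Laplace matrix;
* graphs with loops, signs and arbitrary rational weights of edges and vertices;
* transfer between pair states `e_u - e_v`, plus states `e_u + e_v`, states `e_u + s e_v` with
  rational `s`, uniform states on sets of vertices, etc.
-/

namespace Pool.Agent.Results.MP_a03e85_lc.RationalStates

open Pool.Agent.NPC

/-- The list of the rows of an integer matrix. -/
def rows {n : ℕ} (A : Matrix (Fin n) (Fin n) ℤ) : List (List ℤ) :=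
  List.ofFn fun i => List.ofFn fun j => A i j

/-- Pretty good transfer between the states `a / |a|` and `b / |b|` (for integer vectors `a`, `b`
with `a · a = b · b`) under the Hamiltonian `A / q`: for every `ε > 0` there is a real `t` with
`|a · U(t) b| > (1 - ε) (a · a)`, where `U(t) = exp(i t A / q)`. -/
def Transfer {n : ℕ} (q : ℕ) (A : Matrix (Fin n) (Fin n) ℤ) (a b : Fin n → ℤ) : Prop :=
  ∀ ε : ℝ, 0 < ε → ∃ t : ℝ,
    (1 - ε) * ((a ⬝ᵥ a : ℤ) : ℝ) < ‖(fun k => (a k : ℂ)) ⬝ᵥ
      ((NormedSpace.exp ((Complex.I * (t : ℂ)) • Matrix.of fun i j => (A i j : ℂ) / (q : ℂ)) :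
        Matrix (Fin n) (Fin n) ℂ).mulVec (fun k => (b k : ℂ)))‖

/-- The adjacency matrix of a graph on `{0, ..., n - 1}` as a list of rows of bits. -/
def code {n : ℕ} (G : SimpleGraph (Fin n)) [DecidableRel G.Adj] : List (List Bool) :=
  List.ofFn fun i => List.ofFn fun j => decide (G.Adj i j)

/-- Pretty good state transfer between the vertices `u` and `v` for the Hamiltonian `M`: for every
`ε > 0` there is a real `t` with `|U(t)_{uv}| > 1 - ε`, where `U(t) = exp(i t M)`. -/
def PGST {n : ℕ} (M : Matrix (Fin n) (Fin n) ℂ) (u v : Fin n) : Prop :=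
  ∀ ε : ℝ, 0 < ε → ∃ t : ℝ,
    1 - ε < ‖(NormedSpace.exp ((Complex.I * (t : ℂ)) • M) : Matrix (Fin n) (Fin n) ℂ) u v‖

/-- **Theorem.** (1) A polynomial-time Turing machine decides pretty good transfer between rational
real states under rational symmetric Hamiltonians: on a bit string `x` it outputs `[true]` if and
only if `x` is the code of `(q, A, a, b)` for a natural number `q > 0`, a symmetric integer matrix
`A` and two integer vectors `a`, `b` with `a · a = b · b`, `a ≠ b`, `a ≠ - b` between which pretty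
good transfer occurs under `A / q`.

(2) A polynomial-time Turing machine decides pretty good state transfer between two distinct
vertices of a graph (adjacency matrix): this is the question.

(3) A polynomial-time Turing machine decides Laplacian pretty good state transfer between two
distinct vertices of a graph. -/
theorem result :
    (∃ V : List Bool → List Bool, PolyTime V ∧ ∀ x : List Bool,
      V x = [true] ↔ ∃ (n q : ℕ) (A : Matrix (Fin n) (Fin n) ℤ) (a b : Fin n → ℤ),
        0 < q ∧ A.IsSymm ∧ a ⬝ᵥ a = b ⬝ᵥ b ∧ a ≠ b ∧ a ≠ -b ∧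
        x = bits ((q, rows A, List.ofFn a, List.ofFn b) :
          ℕ × List (List ℤ) × List ℤ × List ℤ) ∧ Transfer q A a b) ∧
    (∃ V : List Bool → List Bool, PolyTime V ∧ ∀ x : List Bool,
      V x = [true] ↔ ∃ (n : ℕ) (G : SimpleGraph (Fin n)) (_ : DecidableRel G.Adj) (u v : Fin n),
        u ≠ v ∧ x = bits ((code G, (u : ℕ), (v : ℕ)) : List (List Bool) × ℕ × ℕ) ∧
        PGST (G.adjMatrix ℂ) u v) ∧
    (∃ V : List Bool → List Bool, PolyTime V ∧ ∀ x : List Bool,
      V x = [true] ↔ ∃ (n : ℕ) (G : SimpleGraph (Fin n)) (_ : DecidableRel G.Adj) (u v : Fin n),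
        u ≠ v ∧ x = bits ((code G, (u : ℕ), (v : ℕ)) : List (List Bool) × ℕ × ℕ) ∧
        PGST (G.lapMatrix ℂ) u v) := by
  have hadj : ∀ (n : ℕ) (G : SimpleGraph (Fin n)) (_ : DecidableRel G.Adj),
      (G.adjMatrix ℤ).map (Int.cast : ℤ → ℂ) = G.adjMatrix ℂ := by
    intro n G _
    ext i j
    simp only [Matrix.map_apply, SimpleGraph.adjMatrix_apply]
    split_ifs <;> simp
  have hlap : ∀ (n : ℕ) (G : SimpleGraph (Fin n)) (_ : DecidableRel G.Adj),
      (G.lapMatrix ℤ).map (Int.cast : ℤ → ℂ) = G.lapMatrix ℂ := by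
    intro n G _
    ext i j
    simp only [Matrix.map_apply, SimpleGraph.lapMatrix, Matrix.sub_apply,
      SimpleGraph.degMatrix, SimpleGraph.adjMatrix_apply, Matrix.diagonal_apply]
    split_ifs <;> simp
  refine ⟨?_, ?_, ?_⟩
  · obtain ⟨V, hV, h⟩ := Y576.PG.inPP_problem2
    refine ⟨V, hV, fun x => ?_⟩
    rw [← h x]
    constructor
    · rintro ⟨y, rfl, n, q, A, a, b, h1, h2, h3, h4, h5, rfl, hp⟩
      exact ⟨n, q, A, a, b, h1, h2, h3, h4, h5, rfl, hp⟩
    · rintro ⟨n, q, A, a, b, h1, h2, h3, h4, h5, rfl, hp⟩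
      exact ⟨_, rfl, n, q, A, a, b, h1, h2, h3, h4, h5, rfl, hp⟩
  · obtain ⟨V, hV, h⟩ := Y576.PG.graph_inPP Y576.PG.adjF Y576.PG.adjF_poly
      (fun n G _ => G.adjMatrix ℤ) (fun n G _ => Y576.PG.adjF_code G)
      (fun n G _ => G.isSymm_adjMatrix (α := ℤ))
    refine ⟨V, hV, fun x => ?_⟩
    rw [← h x]
    constructor
    · rintro ⟨y, rfl, n, G, d, u, v, huv, rfl, hp⟩
      refine ⟨n, G, d, u, v, huv, rfl, ?_⟩
      have := (Y576.PG.trans_single _ u v).1 hp
      rw [hadj] at this
      exact this
    · rintro ⟨n, G, d, u, v, huv, rfl, hp⟩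
      refine ⟨_, rfl, n, G, d, u, v, huv, rfl, ?_⟩
      refine (Y576.PG.trans_single _ u v).2 ?_
      rw [hadj]
      exact hp
  · obtain ⟨V, hV, h⟩ := Y576.PG.graph_inPP Y576.PG.PolyM.toLap
      (Y576.PG.PolyM.toLap_poly NPC.Poly.id)
      (fun n G _ => G.lapMatrix ℤ) (fun n G _ => Y576.PG.toLap_code G)
      (fun n G _ => G.isSymm_lapMatrix (R := ℤ))
    refine ⟨V, hV, fun x => ?_⟩
    rw [← h x]
    constructor
    · rintro ⟨y, rfl, n, G, d, u, v, huv, rfl, hp⟩
      refine ⟨n, G, d, u, v, huv, rfl, ?_⟩
      have := (Y576.PG.trans_single _ u v).1 hp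
      rw [hlap] at this
      exact this
    · rintro ⟨n, G, d, u, v, huv, rfl, hp⟩
      refine ⟨_, rfl, n, G, d, u, v, huv, rfl, ?_⟩
      refine (Y576.PG.trans_single _ u v).2 ?_
      rw [hlap]
      exact hp

end Pool.Agent.Results.MP_a03e85_lc.RationalStates
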